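import Pool.Agent.Y806.NG.LowTwo
import Pool.Agent.Y806.NG.Nice

set_option autoImplicit false

/-!
# The product formula for the cross-index fails for every nice group of non-prime order
-/

namespace Pool.Agent.Results.MP_c446d6_co.CrossIndexProduct

open Pool.Agent.Results.MP_19f4d1_co.CyclicOrderFour Pool.Agent.Y806.NG

/-- The poset `Q_n G` on `{0, …, n} × G`. -/
structure QG (G : Type) (n : ℕ) where
  /-- the level -/
  level : Fin (n + 1)
  /-- the group coordinate -/
  elt : G

theorem QG.ext' {G : Type} {n : ℕ} {a b : QG G n} (h1 : a.level = b.level) (h2 : a.elt = b.elt) :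
    a = b := by
  cases a; cases b; simp_all

/-- `(i, g) ≤ (j, h)` if and only if they are equal or `i < j`. -/
instance (G : Type) (n : ℕ) : PartialOrder (QG G n) where
  le a b := a = b ∨ a.level < b.level
  le_refl a := Or.inl rfl
  le_trans a b c hab hbc := by
    rcases hab with rfl | hab
    · exact hbc
    · rcases hbc with rfl | hbc
      · exact Or.inr hab
      · exact Or.inr (hab.trans hbc)
  le_antisymm a b hab hba := by
    rcases hab with h | h
    · exact h
    · rcases hba with h' | h'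
      · exact h'.symm
      · exact absurd (h.trans h') (lt_irrefl _)

/-- `G` acts by left multiplication on the group coordinate. -/
instance (G : Type) [Group G] (n : ℕ) : MulAction G (QG G n) where
  smul g a := ⟨a.level, g * a.elt⟩
  one_smul a := QG.ext' rfl (one_mul _)
  mul_smul g h a := QG.ext' rfl (mul_assoc g h a.elt)

/-- The cross-index of a `G`-poset `P`: the least `n` such that there is an order-preserving
equivariant map `P → Q_n G` (and `⊤` if there is none). -/
noncomputable def Xind (G : Type) [Group G] (P : Type) [PartialOrder P] [MulAction G P] : ℕ∞ :=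
  sInf {n : ℕ∞ | ∃ k : ℕ, n = k ∧ ∃ f : P → QG G k, Monotone f ∧ ∀ (g : G) (x : P), f (g • x) = g • f x}

/-- The face poset of a finite simplicial complex with an action of `G`: the nonempty simplices,
ordered by inclusion. -/
abbrev Face {G : Type} [Group G] (X : GComplex G) : Type := {s : Finset X.V // s ∈ X.K.faces}

/-- `G` acts on the simplices. -/
instance {G : Type} [Group G] (X : GComplex G) : MulAction G (Face X) where
  smul g s := ⟨s.1.map (MulAction.toPerm g).toEmbedding, X.smul_mem g s.1 s.2⟩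
  one_smul s := by
    apply Subtype.ext
    show s.1.map (MulAction.toPerm (1 : G)).toEmbedding = s.1
    ext v
    simp [Finset.mem_map]
  mul_smul g h s := by
    apply Subtype.ext
    show s.1.map (MulAction.toPerm (g * h)).toEmbedding =
      (s.1.map (MulAction.toPerm h).toEmbedding).map (MulAction.toPerm g).toEmbedding
    ext v
    simp [Finset.mem_map, mul_smul]

/-- The complex is free: `g σ ≠ σ` for every nonempty simplex `σ` and every `g ≠ 1`. -/
def FreeComplex {G : Type} [Group G] (X : GComplex G) : Prop :=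
  ∀ (g : G) (s : Face X), g ≠ 1 → g • s ≠ s

theorem mem_smul_face {G : Type} [Group G] {X : GComplex G} (g : G) (s : Face X) (v : X.V) :
    v ∈ (g • s).1 ↔ g⁻¹ • v ∈ s.1 := by
  show v ∈ s.1.map (MulAction.toPerm g).toEmbedding ↔ _
  rw [Finset.mem_map]
  constructor
  · rintro ⟨w, hw, rfl⟩
    simpa using hw
  · intro h
    exact ⟨_, h, by simp⟩

/-! ### The topological lower bound -/

section lower
open Classical
variable {G : Type} [Group G] [Fintype G] (X : GComplex G)

/-- the weight of a set of vertices -/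
noncomputable def wgt (x : X.V → ℝ) (s : Finset X.V) : ℝ :=
  (∏ u ∈ s, x u) * ∏ u ∈ s, ∏ v ∈ sᶜ, max 0 (x u - x v)

variable {X}

omit [Fintype G] in
theorem wgt_nonneg {x : X.V → ℝ} (hx : ∀ v, 0 ≤ x v) (s : Finset X.V) : 0 ≤ wgt X x s :=
  mul_nonneg (Finset.prod_nonneg fun u _ => hx u)
    (Finset.prod_nonneg fun u _ => Finset.prod_nonneg fun v _ => le_max_left _ _)

omit [Fintype G] in
theorem of_wgt_ne {x : X.V → ℝ} {s : Finset X.V} (h : wgt X x s ≠ 0) :
    (∀ u ∈ s, x u ≠ 0) ∧ ∀ u ∈ s, ∀ v, v ∉ s → x v < x u := by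
  have h1 := left_ne_zero_of_mul h
  have h2 := right_ne_zero_of_mul h
  refine ⟨fun u hu => Finset.prod_ne_zero_iff.1 h1 u hu, fun u hu v hv => ?_⟩
  have h3 := Finset.prod_ne_zero_iff.1 (Finset.prod_ne_zero_iff.1 h2 u hu) v (by simpa using hv)
  by_contra hc
  exact h3 (max_eq_left (by linarith))

omit [Fintype G] in
theorem wgt_chain {x : X.V → ℝ} {s t : Finset X.V} (hs : wgt X x s ≠ 0) (ht : wgt X x t ≠ 0) :
    s ⊆ t ∨ t ⊆ s := by
  by_contra hc
  push Not at hc
  obtain ⟨u, hu, hu'⟩ := Finset.not_subset.1 hc.1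
  obtain ⟨v, hv, hv'⟩ := Finset.not_subset.1 hc.2
  exact lt_asymm ((of_wgt_ne hs).2 u hu v hv') ((of_wgt_ne ht).2 v hv u hu')

omit [Fintype G] in
theorem wgt_continuous (s : Finset X.V) :
    Continuous fun x : X.Realization => wgt X x.val s := by
  have hc : ∀ v, Continuous fun x : X.Realization => x.val v := fun v =>
    (continuous_apply v).comp (continuous_val X)
  unfold wgt
  refine Continuous.mul (continuous_finsetProd _ fun u _ => hc u)
    (continuous_finsetProd _ fun u _ => continuous_finsetProd _ fun v _ => ?_)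
  exact continuous_const.max ((hc u).sub (hc v))

omit [Fintype G] in
theorem wgt_smul (g : G) (x : X.Realization) (s : Finset X.V) :
    wgt X (g • x).val (s.map (MulAction.toPerm g).toEmbedding) = wgt X x.val s := by
  have h0 : ∀ v, (g • x).val (g • v) = x.val v := by
    intro v
    rw [smul_val, inv_smul_smul]
  have hc : (s.map (MulAction.toPerm g).toEmbedding)ᶜ = sᶜ.map (MulAction.toPerm g).toEmbedding := by
    ext v
    simp only [Finset.mem_compl, Finset.mem_map, Equiv.coe_toEmbedding, MulAction.toPerm_apply]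
    constructor
    · intro h
      exact ⟨g⁻¹ • v, fun h' => h ⟨_, h', by simp⟩, by simp⟩
    · rintro ⟨w, hw, rfl⟩ ⟨w', hw', h⟩
      rw [smul_left_cancel_iff] at h
      exact hw (h ▸ hw')
  unfold wgt
  rw [hc]
  simp only [Finset.prod_map, Equiv.coe_toEmbedding, MulAction.toPerm_apply, h0]

noncomputable instance : Fintype (Face X) := by
  infer_instance

omit [Fintype G] in
theorem wgt_total (x : X.Realization) : 0 < ∑ s : Face X, wgt X x.val s.1 := by
  obtain ⟨t, ht, htx⟩ := x.supp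
  let s : Finset X.V := Finset.univ.filter fun v => x.val v ≠ 0
  have hst : s ⊆ t := fun v hv => htx v (by simpa [s] using hv)
  have hne : s.Nonempty := by
    by_contra h
    rw [Finset.not_nonempty_iff_eq_empty] at h
    have h1 : ∑ v, x.val v = 0 := Finset.sum_eq_zero fun v _ => by
      by_contra hv
      have : v ∈ s := by simpa [s] using hv
      rw [h] at this
      simp at this
    have := x.sum_eq
    linarith
  have hs : s ∈ X.K.faces := (X.K.isRelLowerSet_faces ht).2 hst hne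
  have h1 : 0 < wgt X x.val s := by
    unfold wgt
    refine mul_pos (Finset.prod_pos fun u hu => ?_)
      (Finset.prod_pos fun u hu => Finset.prod_pos fun v hv => ?_)
    · exact lt_of_le_of_ne (x.nonneg u) (Ne.symm (by simpa [s] using hu))
    · have hu' : 0 < x.val u := lt_of_le_of_ne (x.nonneg u) (Ne.symm (by simpa [s] using hu))
      have hv' : x.val v = 0 := by simpa [s] using hv
      rw [hv', sub_zero]
      exact lt_max_of_lt_right hu'
  exact lt_of_lt_of_le h1 (Finset.single_le_sum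
    (f := fun s : Face X => wgt X x.val s.1) (fun s _ => wgt_nonneg x.nonneg s.1)
    (Finset.mem_univ (⟨s, hs⟩ : Face X)))

/-- The index of the realization is at most the cross-index of the face poset. -/
theorem ind_le {k : ℕ} (φ : Face X → QG G k) (hm : Monotone φ)
    (he : ∀ (g : G) (s : Face X), φ (g • s) = g • φ s) : ind G X.Realization ≤ k := by
  letI := joinAction G k
  let N : X.Realization → ℝ := fun x => ∑ s : Face X, wgt X x.val s.1
  have hN : ∀ x, 0 < N x := wgt_total
  let c : X.Realization → Fin (k + 1) × G → ℝ := fun x q =>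
    (∑ s : Face X, if ((φ s).level, (φ s).elt) = q then wgt X x.val s.1 else 0) / N x
  have c0 : ∀ x q, 0 ≤ c x q := fun x q => div_nonneg (Finset.sum_nonneg fun s _ => by
    split_ifs
    · exact wgt_nonneg x.nonneg _
    · exact le_rfl) (hN x).le
  have c1 : ∀ x, ∑ q, c x q = 1 := by
    intro x
    simp only [c]
    rw [← Finset.sum_div, Finset.sum_comm]
    simp only [Finset.sum_ite_eq, Finset.mem_univ, if_true]
    exact div_self (hN x).ne'
  have c2 : ∀ x p q, c x p ≠ 0 → c x q ≠ 0 → (p.1 = q.1 → p = q) := by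
    intro x p q hp hq h
    have hp' : (∑ s : Face X, if ((φ s).level, (φ s).elt) = p then wgt X x.val s.1 else 0) ≠ 0 :=
      fun hz => hp (by simp only [c]; rw [hz, zero_div])
    have hq' : (∑ s : Face X, if ((φ s).level, (φ s).elt) = q then wgt X x.val s.1 else 0) ≠ 0 :=
      fun hz => hq (by simp only [c]; rw [hz, zero_div])
    obtain ⟨s, -, hs⟩ := Finset.exists_ne_zero_of_sum_ne_zero hp'
    obtain ⟨t, -, ht⟩ := Finset.exists_ne_zero_of_sum_ne_zero hq'
    split_ifs at hs with hs1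
    swap
    · exact absurd rfl hs
    split_ifs at ht with ht1
    swap
    · exact absurd rfl ht
    subst hs1
    subst ht1
    have key : ∀ s t : Face X, s ≤ t → (φ s).level = (φ t).level →
        ((φ s).level, (φ s).elt) = ((φ t).level, (φ t).elt) := by
      intro s t hst hl
      rcases hm hst with h1 | h1
      · rw [h1]
      · exact absurd hl h1.ne
    rcases wgt_chain hs ht with h1 | h1
    · exact key s t h1 h
    · exact (key t s h1 h.symm).symm
  let f : X.Realization → (E G k).Realization := fun x =>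
    mkPoint (G := G) (V := Fin (k + 1) × G) (c x) (c0 x) (c1 x) (c2 x)
  refine sInf_le ⟨k, rfl, f, ?_, ?_⟩
  · refine (continuous_iff_val (E G k) _).2 fun q => ?_
    show Continuous fun x => c x q
    refine Continuous.div ?_ ?_ fun x => (hN x).ne'
    · refine continuous_finsetSum _ fun s _ => ?_
      split_ifs
      · exact wgt_continuous s.1
      · exact continuous_const
    · exact continuous_finsetSum _ fun s _ => wgt_continuous s.1
  · intro g x
    apply Pool.Agent.Y806.NG.ext0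
    rintro ⟨i, a⟩
    rw [cg_smul]
    show c (g • x) (i, a) = c x (i, g⁻¹ * a)
    have hw : ∀ s : Face X, wgt X (g • x).val (g • s).1 = wgt X x.val s.1 := fun s =>
      wgt_smul g x s.1
    have hN' : N (g • x) = N x := by
      show ∑ s : Face X, wgt X (g • x).val s.1 = ∑ s : Face X, wgt X x.val s.1
      rw [← Equiv.sum_comp (MulAction.toPerm g)]
      exact Finset.sum_congr rfl fun s _ => hw s
    simp only [c]
    rw [hN', ← Equiv.sum_comp (MulAction.toPerm g)]
    congr 1
    refine Finset.sum_congr rfl fun s _ => ?_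
    rw [MulAction.toPerm_apply, he, hw]
    have e1 : ((g • φ s).level, (g • φ s).elt) = ((φ s).level, g * (φ s).elt) := rfl
    rw [e1]
    by_cases h : ((φ s).level, (φ s).elt) = (i, g⁻¹ * a)
    · rw [if_pos h, if_pos]
      rw [Prod.mk.injEq] at h ⊢
      exact ⟨h.1, by rw [h.2, mul_inv_cancel_left]⟩
    · rw [if_neg h, if_neg]
      intro h'
      apply h
      rw [Prod.mk.injEq] at h' ⊢
      exact ⟨h'.1, by rw [← h'.2, inv_mul_cancel_left]⟩

theorem ind_le_Xind : ind G X.Realization ≤ Xind G (Face X) := by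
  refine le_sInf ?_
  rintro n ⟨k, rfl, φ, hm, he⟩
  exact ind_le φ hm he

end lower

/-! ### The map from the product -/

section upper
variable {G : Type} [Group G] [Fintype G] {z : G} {p : ℕ} [NeZero p]

/-- simplices of the first complex as sets of functions -/
def S1 (s : Face (K1 z p)) : Finset (V1 z p) := s.1

/-- simplices of the second complex as sets of pairs -/
def S2 (t : Face (K2 z)) : Finset (Fin 3 × G) := t.1

theorem S1_rel (s : Face (K1 z p)) {f f' : V1 z p} (hf : f ∈ S1 s) (hf' : f' ∈ S1 s) :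
    ∀ g, (f.1 g).1 = (f'.1 g).1 → f.1 g = f'.1 g := s.2.2 f hf f' hf'

theorem S1_ne (s : Face (K1 z p)) : (S1 s).Nonempty := s.2.1

theorem S2_rel (t : Face (K2 z)) {a b : Fin 3 × G} (ha : a ∈ S2 t) (hb : b ∈ S2 t) :
    (a.1 = b.1 → a = b) ∧ a.2⁻¹ * b.2 ∈ Subgroup.zpowers z := t.2.2 a ha b hb

theorem S2_ne (t : Face (K2 z)) : (S2 t).Nonempty := t.2.1

theorem mem_S1_smul (g : G) (s : Face (K1 z p)) (f : V1 z p) :
    f ∈ S1 (g • s) ↔ tr g⁻¹ f ∈ S1 s := mem_smul_face g s f

theorem mem_S2_smul (g : G) (t : Face (K2 z)) (i : Fin 3) (a : G) :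
    (i, a) ∈ S2 (g • t) ↔ (i, g⁻¹ * a) ∈ S2 t := mem_smul_face g t (i, a)

/-- the points of `{0, 1} × G` over the pair of simplices `(s, t)` -/
def Pts (s : Face (K1 z p)) (t : Face (K2 z)) : Set (Fin 2 × G) :=
  {q | (∃ r ∈ S2 t, r.2⁻¹ * q.2 ∈ Subgroup.zpowers z) ∧ ∃ f ∈ S1 s, f.1 q.2⁻¹ = (q.1, 0)}

theorem Pts_mono {s s' : Face (K1 z p)} {t t' : Face (K2 z)} (hs : s ≤ s') (ht : t ≤ t') :
    Pts s t ⊆ Pts s' t' := by
  rintro q ⟨⟨r, hr, h1⟩, f, hf, h2⟩
  exact ⟨⟨r, ht hr, h1⟩, f, hs hf, h2⟩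

theorem Pts_ne (s : Face (K1 z p)) (t : Face (K2 z)) : (Pts s t).Nonempty := by
  obtain ⟨f, hf⟩ := S1_ne s
  obtain ⟨r, hr⟩ := S2_ne t
  set j : ℤ := ((((f.1 r.2⁻¹).2).val : ℕ) : ℤ) with hj
  have hjc : ((j : ℤ) : ZMod p) = (f.1 r.2⁻¹).2 := by
    rw [hj]
    simp
  refine ⟨((f.1 r.2⁻¹).1, r.2 * z ^ j), ⟨r, hr, ?_⟩, f, hf, ?_⟩
  · rw [inv_mul_cancel_left]
    exact Subgroup.zpow_mem_zpowers z j
  · show f.1 (r.2 * z ^ j)⁻¹ = _
    rw [mul_inv_rev, ← zpow_neg, V1_zpow]
    push_cast
    rw [hjc, add_neg_cancel]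

theorem Pts_rel (hz : orderOf z = p) (s : Face (K1 z p)) (t : Face (K2 z)) {q r : Fin 2 × G}
    (hq : q ∈ Pts s t) (hr : r ∈ Pts s t) (h : q.1 = r.1) : q = r := by
  obtain ⟨⟨a, ha, q1⟩, f, hf, q2⟩ := hq
  obtain ⟨⟨b, hb, r1⟩, f', hf', r2⟩ := hr
  have hab := (S2_rel t ha hb).2
  have h1 : q.2⁻¹ * r.2 ∈ Subgroup.zpowers z := by
    have : q.2⁻¹ * r.2 = (a.2⁻¹ * q.2)⁻¹ * ((a.2⁻¹ * b.2) * (b.2⁻¹ * r.2)) := by group
    rw [this]
    exact mul_mem (inv_mem q1) (mul_mem hab r1)
  obtain ⟨n, hn⟩ := Subgroup.mem_zpowers_iff.1 h1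
  have hr2 : r.2 = q.2 * z ^ n := by rw [hn, mul_inv_cancel_left]
  rw [hr2, mul_inv_rev, ← zpow_neg, V1_zpow] at r2
  have h3 := congrArg Prod.fst r2
  have h4 := congrArg Prod.snd r2
  simp only at h3 h4
  push_cast at h4
  have h5 := S1_rel s hf hf' q.2⁻¹ (by rw [q2, h3]; exact h)
  rw [← h5, q2, zero_add, neg_eq_zero] at h4
  have h6 : z ^ n = 1 := by
    rw [← orderOf_dvd_iff_zpow_eq_one, hz]
    exact (ZMod.intCast_zmod_eq_zero_iff_dvd _ _).1 h4
  refine Prod.ext h ?_
  rw [hr2, h6, mul_one]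

theorem Pts_smul (g : G) (s : Face (K1 z p)) (t : Face (K2 z)) (i : Fin 2) (a : G)
    (h : (i, a) ∈ Pts s t) : (i, g * a) ∈ Pts (g • s) (g • t) := by
  obtain ⟨⟨⟨j, b⟩, hr, h1⟩, f, hf, h2⟩ := h
  refine ⟨⟨(j, g * b), ?_, ?_⟩, tr g f, ?_, ?_⟩
  · rw [mem_S2_smul, inv_mul_cancel_left]
    exact hr
  · show (g * b)⁻¹ * (g * a) ∈ _
    have : (g * b)⁻¹ * (g * a) = b⁻¹ * a := by group
    rw [this]
    exact h1
  · rw [mem_S1_smul]
    have : tr g⁻¹ (tr g f) = f := (trE g).left_inv f
    rw [this]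
    exact hf
  · show f.1 ((g * a)⁻¹ * g) = _
    have : (g * a)⁻¹ * g = a⁻¹ := by group
    rw [this]
    exact h2

theorem exists_top (s : Face (K1 z p)) (t : Face (K2 z)) :
    ∃ q ∈ Pts s t, ∀ r ∈ Pts s t, r.1 ≤ q.1 := by
  obtain ⟨q, hq, h⟩ := (Set.toFinite (Pts s t)).exists_maximalFor Prod.fst _ (Pts_ne s t)
  exact ⟨q, hq, fun r hr => (le_total r.1 q.1).elim id fun h' => h hr h'⟩

/-- the highest point over a pair of simplices -/
noncomputable def top (s : Face (K1 z p)) (t : Face (K2 z)) : Fin 2 × G := (exists_top s t).choose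

theorem top_mem (s : Face (K1 z p)) (t : Face (K2 z)) : top s t ∈ Pts s t :=
  (exists_top s t).choose_spec.1

theorem le_top' (s : Face (K1 z p)) (t : Face (K2 z)) {r : Fin 2 × G} (hr : r ∈ Pts s t) :
    r.1 ≤ (top s t).1 := (exists_top s t).choose_spec.2 r hr

theorem top_eq (hz : orderOf z = p) (s : Face (K1 z p)) (t : Face (K2 z)) {q : Fin 2 × G}
    (hq : q ∈ Pts s t) (h : ∀ r ∈ Pts s t, r.1 ≤ q.1) : top s t = q :=
  Pts_rel hz s t (top_mem s t) hq (le_antisymm (h _ (top_mem s t)) (le_top' s t hq))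

theorem Xind_prod (hz : orderOf z = p) : Xind G (Face (K1 z p) × Face (K2 z)) ≤ 1 := by
  refine sInf_le ⟨1, rfl, fun w => ⟨(top w.1 w.2).1, (top w.1 w.2).2⟩, ?_, ?_⟩
  · rintro ⟨s, t⟩ ⟨s', t'⟩ hle
    have h1 := Pts_mono hle.1 hle.2 (top_mem s t)
    rcases (le_top' s' t' h1).eq_or_lt with h2 | h2
    · left
      have h3 := Pts_rel hz s' t' h1 (top_mem s' t') h2
      show (⟨(top s t).1, (top s t).2⟩ : QG G 1) = ⟨(top s' t').1, (top s' t').2⟩
      rw [h3]
    · right
      exact h2
  · rintro g ⟨s, t⟩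
    have h1 := Pts_smul g s t _ _ (top_mem s t)
    have h2 : top (g • s) (g • t) = ((top s t).1, g * (top s t).2) := by
      refine top_eq hz _ _ h1 fun r hr => ?_
      have h3 := Pts_smul g⁻¹ (g • s) (g • t) r.1 r.2 hr
      rw [inv_smul_smul, inv_smul_smul] at h3
      exact le_top' s t (r := (r.1, g⁻¹ * r.2)) h3
    show (⟨(top (g • s) (g • t)).1, (top (g • s) (g • t)).2⟩ : QG G 1) = _
    rw [h2]
    rfl

theorem K1_freeC (hp : 2 ≤ p) (hU : ∀ g : G, g ≠ 1 → ∃ n : ℕ, g ^ n = z) :
    FreeComplex (K1 z p) := by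
  intro g s hg h
  obtain ⟨n, hn⟩ := hU g hg
  have key : ∀ m : ℕ, g ^ m • s = s := by
    intro m
    induction m with
    | zero => rw [pow_zero, one_smul]
    | succ m ih => rw [pow_succ, mul_smul, h, ih]
  have h2 : z • s = s := by
    have := key n
    rwa [hn] at this
  obtain ⟨f, hf⟩ := S1_ne s
  have hq : tr z⁻¹ f ∈ S1 s := by
    rw [← mem_S1_smul, h2]
    exact hf
  have h3 := S1_rel s hf hq 1
  have h4 : (tr z⁻¹ f).1 1 = f.1 z⁻¹ := congrArg f.1 (one_mul _)
  have h5 := f.2 z⁻¹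
  rw [mul_inv_cancel] at h5
  rw [h4, h5] at h3
  have h6 := congrArg Prod.snd (h3 rfl)
  have h7 : (1 : ZMod p) = 0 := by simpa using h6
  have : Fact (1 < p) := ⟨hp⟩
  exact one_ne_zero h7

theorem K2_freeC : FreeComplex (K2 z) := by
  intro g t hg h
  obtain ⟨⟨i, a⟩, hr⟩ := S2_ne t
  have hq : (i, g⁻¹ * a) ∈ S2 t := by
    rw [← mem_S2_smul, h]
    exact hr
  have h1 := congrArg Prod.snd ((S2_rel t hr hq).1 rfl)
  have h3 : g⁻¹ = 1 := mul_eq_right.1 (show a = g⁻¹ * a from h1).symm
  exact hg (inv_eq_one.1 h3)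

end upper

/-- For every nice group `G` whose order is not a prime there are finite free `G`-simplicial
complexes `K₁`, `K₂` for which the cross-index of `F(K₁) × F(K₂)` is at most one, and the
cross-indices of the face posets `F(K₁)` and `F(K₂)` are at least two. So
`Xind (F(K₁) × F(K₂)) < min {Xind F(K₁), Xind F(K₂)}`. -/
theorem result (G : Type) [Group G] [Fintype G] (hG : IsNice G) (hn : ¬ (Nat.card G).Prime) :
    ∃ K₁ K₂ : GComplex G, FreeComplex K₁ ∧ FreeComplex K₂ ∧
      Xind G (Face K₁ × Face K₂) ≤ 1 ∧ 2 ≤ Xind G (Face K₁) ∧ 2 ≤ Xind G (Face K₂) ∧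
      Xind G (Face K₁ × Face K₂) < min (Xind G (Face K₁)) (Xind G (Face K₂)) := by
  obtain ⟨p, c, hp, hc, hcomm, hU⟩ := nice_structure hG hn
  have : NeZero p := ⟨by omega⟩
  have hz : orderOf (c ^ p) = p := by
    have hp0 : p ≠ 0 := by omega
    rw [orderOf_pow_of_dvd hp0 (by rw [hc]; exact dvd_pow_self p (by norm_num)), hc, pow_two,
      Nat.mul_div_cancel _ (by omega)]
  have h1 : 2 ≤ Xind G (Face (K1 (c ^ p) p)) := (K1_index hp hc hcomm).trans ind_le_Xind
  have h2 : 2 ≤ Xind G (Face (K2 (c ^ p))) := (K2_index (c ^ p) hp hz).trans ind_le_Xind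
  have h3 : Xind G (Face (K1 (c ^ p) p) × Face (K2 (c ^ p))) ≤ 1 := Xind_prod hz
  refine ⟨K1 (c ^ p) p, K2 (c ^ p), K1_freeC hp hU, K2_freeC, h3, h1, h2, ?_⟩
  refine lt_of_le_of_lt h3 (lt_of_lt_of_le ?_ (le_min h1 h2))
  norm_num

end Pool.Agent.Results.MP_c446d6_co.CrossIndexProduct
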